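import Pool.Agent.H7.MF.Stmts

/-! Board mf18, row BDE (helper80) -/

set_option autoImplicit false

open Finset

namespace Pool.MF7

open Pool.Agent.H23.KT Pool.Agent.H46.KW Pool.KQ Pool.GT7 Pool.GU7 Pool.GV7

theorem bde_thm (h1 : BGEStmt) (h2 : NUEStmt) (h3 : NUFStmt) (h4 : NUGStmt) : BDEStmt := by
  intro p w r hP
  obtain ⟨-, -, hth0, hth1, -, -⟩ := h2 p w r hP
  obtain ⟨X, hX0, hX1, hXa, hXb⟩ := h3 p w r hP
  obtain ⟨g, hg, ⟨a₁, h5⟩, K₁, hK₁, a₂, h6⟩ :=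
    h4 p w r (thE p w r) X hth0.le hth1.le hX0 hX1 hXa hXb
  have hr := hP.rp
  exact h1 p w r (mE p w r) (thE p w r) g (by omega) le_rfl hg a₁ h5 K₁ hK₁ a₂ h6

end Pool.MF7
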